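import Mathlib
import Pool.Agent.H55.FV.Cst

set_option autoImplicit false

/-!
# Statements of the modules (project FW of helper55, problem MP_b56c98_ag)

The gap of a trace is filled by conditions of decreasing multiplicities `m - 1, m - 2, …, 1` (graded
filling), so that only `O(n ^ m)` points become irregular instead of `O(n ^ (2 m - 2))`.

THEOREM B''. For every `m ≥ 2` there is `n₀` such that for ALL `n ≥ n₀` and all numbers of general points of
`ℙⁿ` with multiplicities at most `m` the Hilbert function is the expected one in all degrees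
`d ≥ 3 m - 1`.
-/

namespace Pool.Agent.H55.FW

open Pool.Agent.W608.PR Pool.Agent.H55.FU Pool.Agent.H55.FV

/-- The constant for the addition of a point of multiplicity `v` to points of multiplicities between
`v` and `m`. One has `kG E m m = kS E m`. -/
def kG (E m v : ℕ) : ℕ := (aa E v - 1) * (sz E m - aa E v) + (aa E v - 1) * (aa E v - 2) / 2

/-- Graded traces. -/
def TPg (K : Type) [Field K] (E m : ℕ) (κ : ℕ → ℕ) : Prop :=
  ∀ (ι : Type) [Fintype ι] (u : ι → ℕ) (e : ℕ), (∀ i, u i ≤ m) →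
    (∀ v, 2 ≤ v → v ≤ m →
      ∑ i ∈ Finset.univ.filter (fun i => v ≤ u i), sz E (u i) + κ v ≤ Nn E e) →
    Nn E e ≤ ∑ i, sz E (u i) → TE E K u e

/-- (hvG) PROOF. Reduce to multisets as in `FE/TPN.lean` (`te_of_hv`, used in `tPg` of FU/TPN.lean): it
suffices that `hv s = 0` if `s` is a multiset of numbers `≤ m` with
`((s.filter (v ≤ ·)).map (sz E)).sum + kG E m v ≤ Nn E e` for `2 ≤ v ≤ m` and
`Nn E e ≤ (s.map (sz E)).sum`. Split off the members `≤ 1` (`hv_add_le`, `sum_sz_simple` as in `hvpS` of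
FV/Cst.lean). For the others prove `hv s + ∑ nc = choose` by induction over the list sorted with the SMALLEST
member first: the tail is independent; the head `v = k + 1` is added: `Sys.h_full` if `g k s = a k`, otherwise
`Sys.bound` (library K4H38/FP/Seq.lean) with `M = m` (or `M = e + 1` if `m > e + 1`, as all the members are
`≤ e + 1`) and `c = g k s ≤ a k - 1` contradicts the condition for `v`, exactly as in the proof of
`Sys.lower`: `2 h ≤ 2 (a k - 1) (N M - a k) + (a k - 1) a k + 2 N k`. -/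
def S_hvG : Prop := ∀ E m : ℕ, 1 ≤ E → 1 ≤ m → TPg ℂ E m (kG E m)

/-- (kGm) `kG E m v = (a - 1) (2 N - a - 2) / 2` with `N = sz E m`, `a = aa E v ≤ N`. -/
def S_kGm : Prop :=
  ∀ E m v w : ℕ, 1 ≤ v → v ≤ w → w ≤ m → kG E m v ≤ kG E m w ∧ kG E m m = kS E m

/-- The number of points which suffices for the graded filling of the gap `g` with conditions of
multiplicities at most `v`. -/
def Ir (E : ℕ) (κ : ℕ → ℕ) : ℕ → ℕ → ℕ
  | 0, _ => 0
  | v + 1, g => (g / sz E (v + 1) + 1) + Ir E κ v (κ (v + 1) + sz E (v + 1))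

/-- (fill) Graded filling of a gap `g`. PROOF by induction on `v`. For `M i ≤ m`, `v ≤ m` one has
`sz E v * sz E (M i) ≤ sz E m * sz E (min v (M i))`. `v = 1`: `J.card ≥ g`, choose `g` elements of `J`,
`u = 1` there. `v + 1 ≥ 2`: `greedy` (W608/PR, as used in FU/Mk.lean) for `f i = sz E (min (v + 1) (M i))`,
bounded by `sz E (v + 1)`, target `g - κ (v + 1)` (`∑ f ≥ g`) gives `J1` with
`∑ f ≤ g - κ (v + 1) ≤ ∑ f + sz E (v + 1)`; put `u i = min (v + 1) (M i)` on `J1` and use the induction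
hypothesis for `J \ J1` and `g' = g - ∑ f ≤ κ (v + 1) + sz E (v + 1)`, as
`sz E (v + 1) * ∑ J1 sz (M i) ≤ sz E m * ∑ f ≤ sz E m * g < sz E m * (sz E (v + 1) * (g / sz E (v + 1) + 1))`,
and monotonicity of `Ir` in `g`. Irregular elements of `J1` have `M i > v + 1`, so `f i = sz E (v + 1)`
and there are at most `g / sz E (v + 1)` of them. -/
def S_fill : Prop :=
  ∀ (E m : ℕ) (κ : ℕ → ℕ) (ι : Type) [DecidableEq ι] (M : ι → ℕ) (v : ℕ) (J : Finset ι) (g : ℕ),
    1 ≤ v → v ≤ m → (∀ i ∈ J, 1 ≤ M i ∧ M i ≤ m) →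
    (∀ w w', 2 ≤ w → w ≤ w' → w' ≤ v → κ w ≤ κ w') → (2 ≤ v → κ v ≤ g) →
    sz E m * Ir E κ v g ≤ ∑ i ∈ J, sz E (M i) →
    ∃ u : ι → ℕ, (∀ i, u i ≤ v) ∧ (∀ i ∈ J, u i ≤ M i) ∧ (∀ i, i ∉ J → u i = 0) ∧
      ∑ i ∈ J, sz E (u i) = g ∧
      (∀ w, 2 ≤ w → w ≤ v →
        ∑ i ∈ J.filter (fun i => w ≤ u i), sz E (u i) + κ w ≤ g) ∧
      (J.filter (fun i => u i ≠ 0 ∧ u i ≠ M i)).card ≤ Ir E κ v g

/-- The numerical conditions for the passage from degree `e + 1` to degree `e`; at most `W` points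
become irregular. -/
def Cndw (E m κ W c c' L e : ℕ) : Prop :=
  (m - 1) * Nn E (e + 1) + (m + E) * (W * sz E m + κ + Xg E m c c' L (e + 1)) ≤
    (m + E) * Nn E e ∧
  (m + E + 1) * (W * sz E m) + m * Nn E (e + 1) ≤ (e + 2) * Nn E (e + 1) ∧ L ≤ e

/-- The numerical conditions for the degree `d`. -/
def Goodw (E m κ W c c' L d : ℕ) : Prop :=
  L + m ≤ d ∧ (∀ e, e < d → d < e + m → Cndw E m κ W c c' L e) ∧
    Sz (E + 1) m * Qg E m κ L d < dm E d ∧
    Qg E m κ L d * sz E m + κ + Xg E m c c' L d ≤ Nn E d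

/-- The number of irregular points for the special constants. -/
def Wm (E m : ℕ) : ℕ := Ir E (kG E m) (m - 1) (kS E m + sz E m)

/-- (Mk) -/
def S_Mkw : Prop :=
  ∀ (K : Type) [Field K] [Infinite K] (E m : ℕ) (κ κ' : ℕ → ℕ) (c c' L W : ℕ), TPs K E m κ →
    TPg K E m κ' → (∀ w w', 2 ≤ w → w ≤ w' → w' ≤ m → κ' w ≤ κ' w') → κ' m ≤ κ m →
    Ir E κ' (m - 1) (κ m + sz E m) ≤ W →
    TNk K E m c → CNk K E m c' → Rooms E m κ L → 1 ≤ m →
    ∀ (ι : Type) [Fintype ι] [DecidableEq ι] (k e : ℕ) (S : Finset ι) (A : ι → Finset ℕ)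
      (B : Finset ι), 1 ≤ k → k ≤ m →
      (∀ e', e' < e → e < e' + k → Cndw E m (κ m) W c c' L e') → L + k ≤ e →
      (∀ i, A i ⊆ Finset.Icc 1 m) →
      (∀ i, i ∉ S → A i = Finset.Icc 1 (mx (A i))) →
      (∀ i ∈ B, i ∈ S ∧ A i = Finset.Icc 1 k) → Qg E m (κ m) L e ≤ B.card →
      ∑ i ∈ S, sz E (mx (A i)) + κ m + Xg E m c c' L e ≤ Nn E e →
      dm E e ≤ ∑ i, cn E (A i) →
      CE E K (fun i => i ∈ S) (fun i => prof (A i)) e

/-- (numB'') As `numBv`. The orders of magnitude in `E`: `kS, cS, cT : 2 m - 2`,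
`Wm : m` (`kG E m v / sz E (v - 1) : m`: use
`g / sz E v * (E + 1) ^ (v - 1) ≤ (v - 1)! * g`), so `Wm * sz : 2 m - 1 < 2 m`;
`Sz (E + 1) m : m - 1`. -/
def S_numBw : Prop :=
  ∀ m : ℕ, 2 ≤ m → ∃ E0 : ℕ, 1 ≤ E0 ∧ ∀ E, E0 ≤ E → Rooms E m (fun a => kS E a) (2 * m - 2) ∧
    ∀ d, 3 * m - 1 ≤ d → Goodw E m (kS E m) (Wm E m) (cS E m) (cT E m) (2 * m - 2) d

end Pool.Agent.H55.FW
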