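import Mathlib
import Pool.Agent.H55.FW.Stm

set_option autoImplicit false

/-!
# Triple points: the numerical statements, graded version
-/

namespace Pool.Agent.H55.FW

open Pool.Agent.W608.PR Pool.Agent.H55.FU Pool.Agent.H55.FV

/-- The base inequalities for multiplicities at most `3` (`D` the first degree, `L` as in `Rooms`). -/
def Base3w (E k3 k2 k1 c c' L D W : ℕ) : Prop :=
  3 ≤ L ∧ L + 3 ≤ D ∧
  L * ((E + 2) * k1) ≤ (E + 1) * ((L - 1) * Nn E (L - 1)) ∧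
  (L + 1) * ((E + 3) * k2) ≤ (E + 1) * ((L - 1) * Nn E L) ∧
  (L + 2) * ((E + 3) * k3) ≤ (E + 1) * (L * Nn E (L + 1)) ∧
  (D - 1) * ((E + 3) * (W * sz E 3 + k3 + Xg E 3 c c' L (D - 1))) ≤
    (E + 1) * ((D - 3) * Nn E (D - 2)) ∧
  (E + 4) * (W * sz E 3) ≤ (D - 3) * Nn E (D - 1) ∧
  Sz (E + 1) 3 * Qg E 3 k3 L D < dm E D ∧
  Qg E 3 k3 L D * sz E 3 + k3 + Xg E 3 c c' L D ≤ Nn E D

/-- (base3w) as `Pool.Agent.H40.FV.base3` -/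
def S_base3w : Prop :=
  ∀ (E : ℕ) (κ : ℕ → ℕ) (c c' L D W : ℕ), 1 ≤ E → Base3w E (κ 3) (κ 2) (κ 1) c c' L D W →
    Rooms E 3 κ L ∧ ∀ d, D ≤ d → Goodw E 3 (κ 3) W c c' L d

/-- `W` for the constant levels `FE.Kc E 3`. -/
def Wk (E : ℕ) : ℕ := Ir E (fun _ => FE.Kc E 3) 2 (FE.Kc E 3 + sz E 3)

/-- (row1) finitely many dimensions -/
def S_row1 : Prop :=
  ∀ p ∈ [(2, 4, 44), (3, 4, 27), (4, 4, 21), (5, 4, 18), (6, 4, 16), (7, 4, 15), (8, 4, 15),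
    (9, 4, 14), (10, 5, 14), (11, 5, 14)], Base3w p.1 (FE.Kc p.1 3) (FE.Kc p.1 2) (FE.Kc p.1 1)
      (cS p.1 3) (cT p.1 3) p.2.1 p.2.2 (Wk p.1)

/-- (row2) finitely many dimensions -/
def S_row2 : Prop :=
  ∀ p ∈ [(12, 5, 13), (13, 5, 13)],
    Base3w p.1 (kS p.1 3) (kS p.1 2) (kS p.1 1) (cS p.1 3) (cT p.1 3) p.2.1 p.2.2 (Wm p.1 3)

/-- (row3) -/
def S_row3 : Prop :=
  ∀ E : ℕ, 14 ≤ E → Base3w E (kS E 3) (kS E 2) (kS E 1) (cS E 3) (cT E 3) 4 12 (Wm E 3)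

/-- (row4) -/
def S_row4 : Prop :=
  ∀ E : ℕ, 18 ≤ E → Base3w E (kS E 3) (kS E 2) (kS E 1) (cS E 3) (cT E 3) 4 11 (Wm E 3)

/-- (row5) -/
def S_row5 : Prop :=
  ∀ E : ℕ, 27 ≤ E → Base3w E (kS E 3) (kS E 2) (kS E 1) (cS E 3) (cT E 3) 4 10 (Wm E 3)

/-- (row6) -/
def S_row6 : Prop :=
  ∀ E : ℕ, 47 ≤ E → Base3w E (kS E 3) (kS E 2) (kS E 1) (cS E 3) (cT E 3) 4 9 (Wm E 3)

/-- (row7) -/
def S_row7 : Prop :=
  ∀ E : ℕ, 313 ≤ E → Base3w E (kS E 3) (kS E 2) (kS E 1) (cS E 3) (cT E 3) 4 8 (Wm E 3)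

end Pool.Agent.H55.FW
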