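import Mathlib
import Pool.Agent.H55.FU.E2
import Pool.Agent.H55.FU.Mk
import Pool.Agent.H55.FV.E1
import Pool.Agent.H55.FW.Stm

set_option autoImplicit false

/-!
# Many points of multiplicity `k` on the hyperplane, graded version
-/

namespace Pool.Agent.H55.FW

open Pool.Agent.W608.PR Pool.Agent.H55.FU Pool.Agent.H55.FV

theorem Ir_mono (E : ℕ) (κ : ℕ → ℕ) (v : ℕ) {g g' : ℕ} (h : g ≤ g') :
    Ir E κ v g ≤ Ir E κ v g' := by
  cases v with
  | zero => exact le_rfl
  | succ v =>
    show g / sz E (v + 1) + 1 + Ir E κ v (κ (v + 1) + sz E (v + 1)) ≤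
      g' / sz E (v + 1) + 1 + Ir E κ v (κ (v + 1) + sz E (v + 1))
    have h1 : g / sz E (v + 1) ≤ g' / sz E (v + 1) := Nat.div_le_div_right h
    omega

theorem mkw (hfill : S_fill) : S_Mkw := by
  classical
  intro K _ _ E m κ κ' c c' L W hP hPg hmono hκm hW hN hCN hR hm ι _ _ k
  induction k with
  | zero =>
    intro e S A B hk
    omega
  | succ k ih =>
    intro e S A B _ hkm hC hLk hA hin hB hq hT htot
    have hmL := hR.2.2
    obtain ⟨e, rfl⟩ : ∃ e', e = e' + 1 := ⟨e - 1, by omega⟩
    obtain ⟨T, hTd⟩ : ∃ T, T = ∑ i ∈ S, sz E (mx (A i)) := ⟨_, rfl⟩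
    rw [← hTd] at hT
    have hXmono := Xg_le_succ E m c c' L e
    have hQmono := Qg_le_succ E m (κ m) L e
    rcases Nat.eq_zero_or_pos k with hk0 | hk0
    · -- simple points on the hyperplane
      subst hk0
      have hB1 : ∀ i ∈ B, i ∈ S ∧ A i = {1} := by
        intro i hi
        refine ⟨(hB i hi).1, ?_⟩
        rw [(hB i hi).2, zero_add, Finset.Icc_self]
      refine CE.exactA (B := B) hB1 ?_ ?_
      · have h1 := e1v K E m κ L hP hR hm ι (e + 1) (S \ B) A B hA
          (fun i hi => ?_)
          (fun i hi => ⟨fun h => (Finset.mem_sdiff.1 h).2 hi, (hB1 i hi).2⟩) (fun _ => ?_) htot hq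
        · exact h1.mono (fun i hi => Finset.mem_sdiff.2 hi) fun i s => le_rfl
        · by_cases hiB : i ∈ B
          · rw [(hB1 i hiB).2, mx_one, Finset.Icc_self]
          · exact hin i fun h => hi (Finset.mem_sdiff.2 ⟨h, hiB⟩)
        · have h2 : ∑ i ∈ S \ B, sz E (mx (A i)) ≤ T := by
            rw [hTd]
            exact Finset.sum_le_sum_of_subset Finset.sdiff_subset
          omega
      · refine e2g K E m c c' L hN hCN hm hmL ι e S
          (fun i => if i ∈ S then (A i).erase (mx (A i)) else A i)
          (fun i => ?_) (fun i hi => ?_) ?_ ?_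
        · show (if i ∈ S then (A i).erase (mx (A i)) else A i) ⊆ Finset.Icc 1 m
          split_ifs
          · exact (Finset.erase_subset _ _).trans (hA i)
          · exact hA i
        · rw [if_neg hi]
          exact hin i hi
        · have h4 : (m + E) * ∑ i ∈ S, sz E (mx (if i ∈ S then (A i).erase (mx (A i)) else A i)) ≤
              (m - 1) * T := by
            rw [hTd, Finset.mul_sum, Finset.mul_sum]
            refine Finset.sum_le_sum fun i hi => ?_
            rw [if_pos hi]
            exact T_reg (hA i)
          have h5 : (m - 1) * T ≤ (m - 1) * Nn E (e + 1) := Nat.mul_le_mul_left _ (by omega)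
          have h6 := Nn_growth (E := E) (m := m) (e := e) (by omega)
          exact le_trans (le_of_mul_le_mul_left (h4.trans (h5.trans h6)) (by omega))
            (Nat.le_add_right _ _)
        · have h1 : ∑ i, cn E (if i ∈ S then (A i).erase (mx (A i)) else A i) + T =
              ∑ i, cn E (A i) := by
            rw [hTd, ← Finset.sum_add_sum_compl S (fun i => cn E (A i)),
              ← Finset.sum_add_sum_compl S, add_right_comm, ← Finset.sum_add_distrib]
            congr 1
            · refine Finset.sum_congr rfl fun i hi => ?_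
              rw [if_pos hi]
              exact cn_erase _ (mx_mem_or _)
            · refine Finset.sum_congr rfl fun i hi => ?_
              rw [if_neg (Finset.mem_compl.1 hi)]
          have h2 := dm_succ E e
          omega
    · -- a step
      obtain ⟨hC1, hC2, hC3⟩ := hC e (by omega) (by omega)
      obtain ⟨J, hJ⟩ : ∃ J : Finset ι, J = Sᶜ.filter (fun i => (A i).Nonempty) := ⟨_, rfl⟩
      have hJm : ∀ i, i ∈ J ↔ i ∉ S ∧ (A i).Nonempty := by
        intro i
        rw [hJ, Finset.mem_filter, Finset.mem_compl]
      have hszpos : 0 < sz E m := sz_pos E hm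
      have hSJ : Nn E (e + 1) + W * sz E m ≤ T + ∑ i ∈ J, sz E (mx (A i)) := by
        have h1 : (E + 2) * ∑ i ∈ S, cn E (A i) ≤ (m + E + 1) * T := by
          rw [hTd, Finset.mul_sum, Finset.mul_sum]
          exact Finset.sum_le_sum fun i _ => cn_ratio (hA i) (mx_le (hA i))
        have h2 : (E + 2) * ∑ i ∈ Sᶜ, cn E (A i) ≤ (m + E + 1) * ∑ i ∈ J, sz E (mx (A i)) := by
          rw [hJ, Finset.mul_sum, Finset.mul_sum, Finset.sum_filter]
          refine Finset.sum_le_sum fun i _ => ?_
          split_ifs with h
          · exact cn_ratio (hA i) (mx_le (hA i))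
          · rw [Finset.not_nonempty_iff_eq_empty] at h
            rw [h, cn_empty, mul_zero]
        have h3 := Finset.sum_add_sum_compl S fun i => cn E (A i)
        have h4 : (E + 2) * dm E (e + 1) ≤ (E + 2) * ∑ i, cn E (A i) := Nat.mul_le_mul_left _ htot
        rw [dm_up, ← h3, Nat.mul_add] at h4
        have h5 : (m + E + 1) * (Nn E (e + 1) + W * sz E m) ≤
            (m + E + 1) * (T + ∑ i ∈ J, sz E (mx (A i))) := by
          have h6 : (e + 1 + E + 2) * Nn E (e + 1) =
              (e + 2) * Nn E (e + 1) + (E + 1) * Nn E (e + 1) := by ring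
          have h7 : (m + E + 1) * (Nn E (e + 1) + W * sz E m) =
              (m + E + 1) * (W * sz E m) + m * Nn E (e + 1) + (E + 1) * Nn E (e + 1) := by
            ring
          rw [h7, Nat.mul_add]
          omega
        exact le_of_mul_le_mul_left h5 (by omega)
      have hszJ : ∀ i, sz E (mx (A i)) ≤ sz E m := fun i => sz_mono E (mx_le (hA i))
      obtain ⟨J1, hJ1, hJ1a, hJ1b⟩ := greedy (fun i => sz E (mx (A i))) (sz E m) J
        (fun i _ => hszJ i) (Nn E (e + 1) - κ m - T) (by omega)
      obtain ⟨g, hg⟩ : ∃ g, g = Nn E (e + 1) - T - ∑ i ∈ J1, sz E (mx (A i)) := ⟨_, rfl⟩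
      have hgT : T + ∑ i ∈ J1, sz E (mx (A i)) + g = Nn E (e + 1) := by omega
      have hgκ : κ m ≤ g := by omega
      have hg2 : g ≤ κ m + sz E m := by omega
      have hJ' : sz E m * W ≤ ∑ i ∈ J \ J1, sz E (mx (A i)) := by
        have h1 := Finset.sum_sdiff (f := fun i => sz E (mx (A i))) hJ1
        rw [mul_comm]
        omega
      have hmxpos : ∀ i ∈ J, 1 ≤ mx (A i) := by
        intro i hi
        exact (Finset.mem_Icc.1 (hA i (mx_mem ((hJm i).1 hi).2))).1
      obtain ⟨u₀, hu1, hu2, hu3, hu4, hu5, hu6⟩ := hfill E m κ' ι (fun i => mx (A i)) (m - 1)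
        (J \ J1) g (by omega) (by omega)
        (fun i hi => ⟨hmxpos i (Finset.mem_sdiff.1 hi).1, mx_le (hA i)⟩)
        (fun w w' h1 h2 h3 => hmono w w' h1 h2 (by omega))
        (fun h => (hmono (m - 1) m h (by omega) le_rfl).trans (hκm.trans hgκ))
        (le_trans (Nat.mul_le_mul_left _ ((Ir_mono E κ' (m - 1) hg2).trans hW)) hJ')
      obtain ⟨u, hu⟩ : ∃ u : ι → ℕ, ∀ i, u i = if i ∈ S ∪ J1 then mx (A i) else u₀ i :=
        ⟨_, fun _ => rfl⟩
      have hJ1S : Disjoint S J1 := by
        rw [Finset.disjoint_left]
        intro i hi hi'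
        exact ((hJm i).1 (hJ1 hi')).1 hi
      have hJn : ∀ i ∈ J \ J1, i ∉ S ∪ J1 := by
        intro i hi h
        rw [Finset.mem_sdiff] at hi
        rcases Finset.mem_union.1 h with h | h
        · exact ((hJm i).1 hi.1).1 h
        · exact hi.2 h
      have huF : ∀ i ∈ S ∪ J1, u i = mx (A i) := fun i hi => by rw [hu, if_pos hi]
      have huS : ∀ i ∈ S, u i = mx (A i) := fun i hi => huF i (Finset.mem_union_left _ hi)
      have huN : ∀ i, i ∉ S ∪ J1 → u i = u₀ i := fun i hi => by rw [hu, if_neg hi]
      have hFsum : ∑ i ∈ S ∪ J1, sz E (mx (A i)) = T + ∑ i ∈ J1, sz E (mx (A i)) := by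
        rw [Finset.sum_union hJ1S, ← hTd]
      have hsum : ∑ i, sz E (u i) = Nn E (e + 1) := by
        have h1 : ∀ i ∈ Finset.univ, sz E (u i) =
            (if i ∈ S ∪ J1 then sz E (mx (A i)) else 0) +
              (if i ∈ J \ J1 then sz E (u₀ i) else 0) := by
          intro i _
          by_cases h : i ∈ S ∪ J1
          · have h2 : i ∉ J \ J1 := fun h3 => hJn i h3 h
            rw [huF i h, if_pos h, if_neg h2, add_zero]
          · rw [huN i h, if_neg h, zero_add]
            split_ifs with h2
            · rfl
            · rw [hu3 i h2, sz_zero]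
        rw [Finset.sum_congr rfl h1, Finset.sum_add_distrib, Finset.sum_ite_mem,
          Finset.sum_ite_mem, Finset.univ_inter, Finset.univ_inter, hFsum, hu4]
        exact hgT
      have hmem : ∀ i, u i ∈ A i ∨ u i = 0 := by
        intro i
        by_cases h1 : i ∈ S ∪ J1
        · rw [huF i h1]
          exact mx_mem_or _
        · rw [huN i h1]
          rcases Nat.eq_zero_or_pos (u₀ i) with h2 | h2
          · exact Or.inr h2
          · left
            have h3 : i ∈ J \ J1 := by
              by_contra h4
              have := hu3 i h4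
              omega
            rw [Finset.mem_union, not_or] at h1
            rw [hin i h1.1, Finset.mem_Icc]
            exact ⟨h2, hu2 i h3⟩
      have hum : ∀ i, i ∉ S → u i ≤ mx (A i) := by
        intro i _
        by_cases h1 : i ∈ S ∪ J1
        · exact (huF i h1).le
        · rw [huN i h1]
          by_cases h2 : i ∈ J \ J1
          · exact hu2 i h2
          · rw [hu3 i h2]
            exact Nat.zero_le _
      have hum' : ∀ i, u i ≤ m := by
        intro i
        by_cases h : i ∈ S
        · rw [huS i h]
          exact mx_le (hA i)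
        · exact (hum i h).trans (mx_le (hA i))
      have hTr : TE E K u (e + 1) := by
        refine hPg ι u (e + 1) hum' (fun w hw hwm => ?_) (le_of_eq hsum.symm)
        have h1 : ∑ i ∈ Finset.univ.filter (fun i => w ≤ u i), sz E (u i) ≤
            ∑ i ∈ S ∪ J1, sz E (mx (A i)) +
              ∑ i ∈ (J \ J1).filter (fun i => w ≤ u₀ i), sz E (u₀ i) := by
          rw [Finset.sum_filter]
          have h2 : ∀ i ∈ Finset.univ, (if w ≤ u i then sz E (u i) else 0) ≤
              (if i ∈ S ∪ J1 then sz E (mx (A i)) else 0) +
                (if i ∈ (J \ J1).filter (fun i => w ≤ u₀ i) then sz E (u₀ i) else 0) := by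
            intro i _
            by_cases h : i ∈ S ∪ J1
            · rw [huF i h, if_pos h]
              split_ifs <;> omega
            · rw [huN i h, if_neg h, zero_add]
              split_ifs with h3 h4
              · exact le_rfl
              · exfalso
                rw [Finset.mem_filter, not_and] at h4
                have h5 : i ∉ J \ J1 := fun h6 => h4 h6 h3
                have h7 := hu3 i h5
                omega
              · exact Nat.zero_le _
              · exact le_rfl
          refine (Finset.sum_le_sum h2).trans (le_of_eq ?_)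
          rw [Finset.sum_add_distrib, Finset.sum_ite_mem, Finset.sum_ite_mem, Finset.univ_inter,
            Finset.univ_inter]
        rw [hFsum] at h1
        rcases Nat.lt_or_ge w m with h3 | h3
        · have h4 := hu5 w hw (by omega)
          omega
        · obtain rfl : w = m := by omega
          have h4 : (J \ J1).filter (fun i => w ≤ u₀ i) = ∅ := by
            rw [Finset.filter_eq_empty_iff]
            intro i _ h5
            have h6 := hu1 i
            omega
          rw [h4, Finset.sum_empty] at h1
          omega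
      refine Pool.Agent.H55.FE.stepT (u := u) hA hin huS hum hTr ?_
      have hTn := T_next (E := E) (S := S) (u := u) hA huS
        ((J \ J1).filter (fun i => u₀ i ≠ 0 ∧ u₀ i ≠ mx (A i))) (fun i hi hne h3 => by
        by_cases h2 : i ∈ S ∪ J1
        · exact huF i h2
        · rw [huN i h2] at hne ⊢
          by_contra h4
          refine h3 (Finset.mem_filter.2 ⟨?_, hne, h4⟩)
          by_contra h5
          exact hne (hu3 i h5))
      rw [hsum] at hTn
      have hTm : ∑ i ∈ S ∪ Finset.univ.filter (fun i => u i ≠ 0),
          sz E (mx ((A i).erase (u i))) + κ m + Xg E m c c' L (e + 1) ≤ Nn E e := by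
        have h1 : ((J \ J1).filter (fun i => u₀ i ≠ 0 ∧ u₀ i ≠ mx (A i))).card * sz E m ≤
            W * sz E m :=
          Nat.mul_le_mul_right _ (hu6.trans ((Ir_mono E κ' (m - 1) hg2).trans hW))
        have h2 := Nat.mul_le_mul_left (m + E) h1
        refine le_of_mul_le_mul_left (?_ : (m + E) * _ ≤ (m + E) * _) (by omega)
        rw [Nat.mul_add, Nat.mul_add] at hC1 ⊢
        omega
      refine ih e _ (fun i => (A i).erase (u i)) B hk0 (by omega)
        (fun e' h1 h2 => hC e' (by omega) (by omega)) (by omega)
        (fun i => (Finset.erase_subset _ _).trans (hA i)) (fun i hi => ?_) (fun i hi => ?_) ?_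
        ?_ ?_
      · rw [Finset.mem_union, not_or, Finset.mem_filter, not_and, not_not] at hi
        have h0 := hi.2 (Finset.mem_univ _)
        show (A i).erase (u i) = Finset.Icc 1 (mx ((A i).erase (u i)))
        rw [h0, erase_zero (hA i)]
        exact hin i hi.1
      · refine ⟨Finset.mem_union_left _ (hB i hi).1, ?_⟩
        show (A i).erase (u i) = Finset.Icc 1 k
        rw [huS i (hB i hi).1, (hB i hi).2, mx_Icc]
        ext v
        rw [Finset.mem_erase, Finset.mem_Icc, Finset.mem_Icc]
        omega
      · omega
      · show ∑ i ∈ S ∪ Finset.univ.filter (fun i => u i ≠ 0),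
          sz E (mx ((A i).erase (u i))) + κ m + Xg E m c c' L e ≤ Nn E e
        omega
      · have h1 := tot_next (E := E) hmem
        have h2 := dm_succ E e
        show dm E e ≤ ∑ i, cn E ((A i).erase (u i))
        omega

end Pool.Agent.H55.FW
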