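import Mathlib
import Pool.Agent.H55.FW.Mk

set_option autoImplicit false

/-!
# Module Gg, graded version
-/

namespace Pool.Agent.H55.FW

open Pool.Agent.W608.PR Pool.Agent.H55.FU Pool.Agent.H55.FV

theorem sum_Sz (E m : ℕ) : ∑ k ∈ Finset.range m, Sz E (k + 1) = Sz (E + 1) m := by
  induction m with
  | zero =>
    unfold Sz
    rw [Finset.sum_range_zero, Nat.choose_eq_zero_of_lt (by omega)]
  | succ m ih =>
    rw [Finset.sum_range_succ, ih]
    unfold Sz
    rw [show m + 1 + (E + 1) + 1 = (m + (E + 1) + 1) + 1 by ring,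
      show E + 1 + 2 = (E + 2) + 1 by ring, Nat.choose_succ_succ, add_comm]
    congr 2
    ring

/-- A frequent multiplicity. -/
theorem exists_freqw {E : ℕ} {ι : Type} [Fintype ι] {m : ℕ} (w : ι → ℕ) (hw : ∀ i, w i ≤ m)
    (Q X : ℕ) (h : Sz (E + 1) m * Q < X) (hX : X ≤ ∑ i, Sz E (w i)) :
    ∃ k, 1 ≤ k ∧ k ≤ m ∧ Q ≤ (Finset.univ.filter (fun i => w i = k)).card := by
  classical
  by_contra hcon
  push Not at hcon
  have h1 : ∑ i, Sz E (w i) = ∑ k ∈ Finset.range (m + 1),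
      ∑ i ∈ Finset.univ.filter (fun i => w i = k), Sz E (w i) := by
    rw [Finset.sum_fiberwise_of_maps_to]
    intro i _
    rw [Finset.mem_range]
    have := hw i
    omega
  rw [Finset.sum_range_succ'] at h1
  have h2 : ∑ i ∈ Finset.univ.filter (fun i => w i = 0), Sz E (w i) = 0 := by
    refine Finset.sum_eq_zero fun i hi => ?_
    rw [(Finset.mem_filter.1 hi).2, Sz_zero]
  have h3 : ∑ k ∈ Finset.range m, ∑ i ∈ Finset.univ.filter (fun i => w i = k + 1),
      Sz E (w i) ≤ Sz (E + 1) m * Q := by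
    rw [← sum_Sz, Finset.sum_mul]
    refine Finset.sum_le_sum fun k hk => ?_
    rw [Finset.mem_range] at hk
    have h5 := hcon (k + 1) (by omega) (by omega)
    calc ∑ i ∈ Finset.univ.filter (fun i => w i = k + 1), Sz E (w i)
        = ∑ _i ∈ Finset.univ.filter (fun i => w i = k + 1), Sz E (k + 1) :=
          Finset.sum_congr rfl fun i hi => by rw [(Finset.mem_filter.1 hi).2]
      _ = (Finset.univ.filter (fun i => w i = k + 1)).card * Sz E (k + 1) := by
          rw [Finset.sum_const, smul_eq_mul]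
      _ ≤ Sz E (k + 1) * Q := by
          rw [mul_comm]
          exact Nat.mul_le_mul_left _ h5.le
  omega

theorem ggw (hfill : S_fill) {E m : ℕ} {κ κ' : ℕ → ℕ} {c c' L W D : ℕ} (hP : TPs ℂ E m κ)
    (hPg : TPg ℂ E m κ') (hmono : ∀ w w', 2 ≤ w → w ≤ w' → w' ≤ m → κ' w ≤ κ' w')
    (hκm : κ' m ≤ κ m) (hW : Ir E κ' (m - 1) (κ m + sz E m) ≤ W) (hN : TNk ℂ E m c)
    (hCN : CNk ℂ E m c') (hR : Rooms E m κ L) (hm : 1 ≤ m)
    (hD : ∀ d, D ≤ d → Goodw E m (κ m) W c c' L d) : G ℂ (E + 1) m D := by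
  classical
  intro n w hw d hd htot
  obtain ⟨hd1, hC, h4, h5⟩ := hD d hd
  have htot' : dm E d ≤ ∑ i, Sz E (w i) := htot
  obtain ⟨k, hk1, hk2, hk3⟩ := exists_freqw (E := E) w hw _ _ h4 htot'
  obtain ⟨B, hB, hBc⟩ := Finset.exists_subset_card_eq hk3
  have hBk : ∀ i ∈ B, w i = k := fun i hi => (Finset.mem_filter.1 (hB hi)).2
  refine full_of_CE ?_
  have h7 := mkw hfill ℂ E m κ κ' c c' L W hP hPg hmono hκm hW hN hCN hR hm (Fin n) k d B
    (fun i => Finset.Icc 1 (w i)) B hk1 hk2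
    (fun e he he' => hC e he (by omega)) (by omega)
    (fun i => Finset.Icc_subset_Icc_right (hw i))
    (fun i _ => by rw [mx_Icc]) (fun i hi => ⟨hi, by rw [hBk i hi]⟩) (le_of_eq hBc.symm) ?_ ?_
  · exact h7.mono (fun i hi => hi.elim) fun i s => le_rfl
  · refine le_trans (Nat.add_le_add_right (Nat.add_le_add_right ?_ _) _) h5
    calc ∑ i ∈ B, sz E (mx (Finset.Icc 1 (w i))) ≤ ∑ _i ∈ B, sz E m := by
          refine Finset.sum_le_sum fun i _ => sz_mono E ?_
          rw [mx_Icc]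
          exact hw i
      _ = Qg E m (κ m) L d * sz E m := by rw [Finset.sum_const, smul_eq_mul, hBc]
  · refine htot'.trans (le_of_eq (Finset.sum_congr rfl fun i _ => ?_))
    rw [cn_Icc]

/-- Constant levels. -/
theorem tPg_const {K : Type} [Field K] {E m κ : ℕ} (hm : 2 ≤ m) (h : TPk K E m κ) :
    TPg K E m (fun _ => κ) := by
  classical
  intro ι _ u e hu hl ht
  refine h ι u (Finset.univ.filter (fun i => 2 ≤ u i)) e hu (fun i hi => ?_) (hl 2 le_rfl hm) ht
  by_contra h1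
  exact hi (Finset.mem_filter.2 ⟨Finset.mem_univ _, by omega⟩)

end Pool.Agent.H55.FW
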