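import Mathlib
import Pool.Agent.H55.FW.Fin
import Pool.Agent.H40.FW.Base3w
import Pool.Agent.H40.FW.Fill
import Pool.Agent.H1.FW.NumBw
import Pool.Agent.H10.FW.Rows
import Pool.Agent.H22.FW.Rows3
import Pool.Agent.H1.FW.HvG

set_option autoImplicit false

/-!
# The graded version: results
-/

namespace Pool.Agent.H55.FW

open Pool.Agent.W608.PR Pool.Agent.H55.FU Pool.Agent.H55.FV

/-- The linear bound in large dimensions. -/
theorem GBw {m : ℕ} (hm : 2 ≤ m) : ∃ E0 : ℕ, ∀ E, E0 ≤ E → G ℂ E m (3 * m - 1) :=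
  GBw' Pool.Agent.H40.FW.fill Pool.Agent.H1.FW.hvG Pool.Agent.H1.FW.kGm Pool.Agent.H1.FW.numBw hm

/-- Multiplicities at most `3`, `n = E + 1`. -/
theorem G3 {E D : ℕ} (h : Tab (E + 1) D) : G ℂ E 3 D :=
  G3' Pool.Agent.H40.FW.fill Pool.Agent.H40.FW.base3w Pool.Agent.H1.FW.hvG Pool.Agent.H1.FW.kGm Pool.Agent.H10.FW.row1
    Pool.Agent.H10.FW.row2 Pool.Agent.H22.FW.row3 Pool.Agent.H22.FW.row4 Pool.Agent.H22.FW.row5
    Pool.Agent.H22.FW.row6 Pool.Agent.H22.FW.row7 h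

end Pool.Agent.H55.FW
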