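import Mathlib
import Pool.Agent.H55.FW.GW
import Pool.Agent.H1.FW.NumBx

set_option autoImplicit false

/-!
# The linear bound in large dimensions, explicit
-/

namespace Pool.Agent.H55.FW

open Pool.Agent.W608.PR Pool.Agent.H55.FU Pool.Agent.H55.FV

/-- The linear bound in the dimensions `n = E + 2 ≥ 200 ^ m`. -/
theorem GBx {E m : ℕ} (hm : 2 ≤ m) (hE : 200 ^ m ≤ E + 2) : G ℂ (E + 1) m (3 * m - 1) := by
  have hE1 : 1 ≤ E := by
    have h1 : 200 ^ 1 ≤ 200 ^ m := Nat.pow_le_pow_right (by norm_num) (by omega)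
    omega
  obtain ⟨hR, hgood⟩ := Pool.Agent.H1.FW.numBx m hm E hE
  exact ggw Pool.Agent.H40.FW.fill (κ := fun a => kS E a) (κ' := kG E m)
    (fun a ha _ => tPS hE1 ha) (Pool.Agent.H1.FW.hvG E m hE1 (by omega))
    (fun w w' h1 h2 h3 => (Pool.Agent.H1.FW.kGm E m w w' (by omega) h2 h3).1)
    (Pool.Agent.H1.FW.kGm E m m m (by omega) le_rfl le_rfl).2.le le_rfl (tNS hE1) (cNS hE1) hR
    (by omega) hgood

end Pool.Agent.H55.FW
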