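import Mathlib
import Pool.Agent.H55.FW.Stm

set_option autoImplicit false

/-!
# The numerical statement with an explicit dimension
-/

namespace Pool.Agent.H55.FW

open Pool.Agent.W608.PR Pool.Agent.H55.FU Pool.Agent.H55.FV

/-- (numBx) `numBw` with the explicit bound `n = E + 2 ≥ 100 ^ m` (true already for `n ≥ 8 ^ m`: the
thresholds for `m = 2, …, 8` are `22, 312, 2789, 19366, 117985, 663283, 3530584`). PROOF. `k = E + 1`,
`k ^ x ≤ x ! * Nn E x ≤ 2 k ^ x` for `x ≤ 3 m` (as `k ≥ 100 ^ m - 1 ≥ (3 m) ^ 2`, Bernoulli), in the same way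
`(m-1)! * sz E m ≤ 2 k ^ (m-1)`, `(v-1)! * aa E v ≤ 2 k ^ (v-1)`, `kG E m v ≤ aa E v * sz E m`,
`κ v + 1 + N v ≤ 3 aa N`, so `Wm E m ≤ 10 m * k ^ m / (m-1)!`, `Wm * sz ≤ 20 m * k ^ (2m-1) / ((m-1)!) ^ 2` and the
first part of `Cndw` at `e = 2 m` is `48 m ^ 3 * (2 m).choose m ≤ k`-like, `(2m).choose m ≤ 4 ^ m`. -/
def S_numBx : Prop :=
  ∀ m : ℕ, 2 ≤ m → ∀ E, 100 ^ m ≤ E + 2 → Rooms E m (fun a => kS E a) (2 * m - 2) ∧
    ∀ d, 3 * m - 1 ≤ d → Goodw E m (kS E m) (Wm E m) (cS E m) (cT E m) (2 * m - 2) d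

end Pool.Agent.H55.FW
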